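import Mathlib

set_option autoImplicit false
open Subgroup commutatorElement

namespace Pool.Agent.H.MP_0c2877_al

variable {G : Type} [Group G]

lemma z0 {x C : ℝ} (h : ∀ n : ℕ, |n * x| ≤ C) : x = 0 := by
  by_contra k
  obtain ⟨n, hn⟩ := exists_nat_gt (C / |x|)
  have := h n
  rw [abs_mul, Nat.abs_cast] at this
  exact absurd ((div_lt_iff₀ (abs_pos.2 k)).1 hn) this.not_gt

lemma hom {D : G → ℝ} {C : ℝ} (h : ∀ g k, |D (g * k) - D g - D k| ≤ C) :
    ∃ ρ : G → ℝ, ∀ g (n : ℕ), |n * ρ g - D (g ^ n)| ≤ C := by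
  have h1 : |D 1| ≤ C := by simpa using h 1 1
  have h2 : ∀ g (m : ℕ), |D (g ^ (m + 1)) - (m + 1) * D g| ≤ m * C := fun g m => by
    induction m with
    | zero => simp
    | succ m ih =>
      have := h (g ^ (m + 1)) g
      rw [← pow_succ] at this
      rw [abs_le] at *
      push_cast
      constructor <;> linarith
  have : ∀ g, ∃ r : ℝ, ∀ n : ℕ, |n * r - D (g ^ n)| ≤ C := fun g => by
    obtain ⟨r, r1, r2⟩ := exists_between_of_forall_le (s := Set.range fun n : ℕ => (D (g ^ (n + 1)) - C) / (n + 1))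
      (t := Set.range fun n : ℕ => (D (g ^ (n + 1)) + C) / (n + 1)) (Set.range_nonempty _) (Set.range_nonempty _) (by
        rintro _ ⟨m, rfl⟩ _ ⟨n, rfl⟩
        have q1 := abs_le.1 (h2 (g ^ (m + 1)) n)
        have q2 := abs_le.1 (h2 (g ^ (n + 1)) m)
        rw [← pow_mul] at q1 q2
        rw [mul_comm (n + 1)] at q2
        have := (abs_nonneg _).trans h1
        rw [div_le_div_iff₀ (by positivity) (by positivity)]
        linarith)
    refine ⟨r, fun n => ?_⟩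
    rcases n with _ | n
    · simpa using h1
    have q1 := (div_le_iff₀ (by positivity)).1 (r1 ⟨n, rfl⟩)
    have q2 := (le_div_iff₀ (by positivity)).1 (r2 ⟨n, rfl⟩)
    rw [abs_le]; push_cast
    constructor <;> linarith
  exact ⟨_, fun g => (this g).choose_spec⟩

lemma add {ρ : G → ℝ} {C : ℝ} (h : ∀ g k, |ρ (g * k) - ρ g - ρ k| ≤ C) (hp : ∀ g (n : ℕ), ρ (g ^ n) = n * ρ g)
    (K : Subgroup G) (hK : ∀ a ∈ ⁅K, K⁆, ∀ b ∈ ⁅K, K⁆, ρ (a * b) = ρ a + ρ b) :
    (∀ a ∈ ⁅K, K⁆, ρ a = 0) ∧ ∀ a ∈ K, ∀ b ∈ K, ρ (a * b) = ρ a + ρ b := by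
  have h1 : ρ 1 = 0 := by simpa using hp 1 0
  have hi : ∀ g, ρ g⁻¹ = -ρ g := fun g => eq_neg_of_add_eq_zero_left (z0 (C := C) fun n => by
    have := h (g⁻¹ ^ n) (g ^ n)
    rwa [inv_pow, inv_mul_cancel, h1, ← inv_pow, hp, hp, sub_sub, zero_sub, abs_neg, ← mul_add] at this)
  have hc : ∀ g k, ρ (g * k * g⁻¹) = ρ k := fun g k => sub_eq_zero.1 (z0 (C := C + C) fun n => by
    have q1 := abs_le.1 (h (g * k ^ n) g⁻¹)
    have q2 := abs_le.1 (h g (k ^ n))
    rw [← conj_pow, hp, hi] at q1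
    rw [hp] at q2
    rw [abs_le]
    constructor <;> linarith)
  have cj : ∀ g ∈ K, ∀ a ∈ ⁅K, K⁆, g * a * g⁻¹ ∈ ⁅K, K⁆ := fun g hg a ha => by
    simpa [commutatorElement_def] using mul_mem (commutator_mem_commutator hg (commutator_le_self K ha)) ha
  have c0 : ∀ g ∈ K, ∀ k ∈ K, ρ ⁅g, k⁆ = 0 := fun g hg k hk => z0 (C := C) fun n => by
    have : ρ ⁅g ^ n, k⁆ = n * ρ ⁅g, k⁆ := by
      induction n with
      | zero => simp [h1]
      | succ n ih =>
        rw [show ⁅g ^ (n + 1), k⁆ = g * ⁅g ^ n, k⁆ * g⁻¹ * ⁅g, k⁆ by simp only [commutatorElement_def]; group,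
          hK _ (cj g hg _ (commutator_mem_commutator (pow_mem hg n) hk)) _ (commutator_mem_commutator hg hk), hc, ih]
        push_cast; ring
    have q := h (g ^ n) (k * (g ^ n)⁻¹ * k⁻¹)
    rw [hc, hi, ← mul_assoc, ← mul_assoc] at q
    rw [← this]
    simpa [commutatorElement_def] using q
  have c1 : ∀ a ∈ ⁅K, K⁆, ρ a = 0 := fun a ha => by
    induction ha using closure_induction with
    | mem s hs => obtain ⟨g, hg, k, hk, rfl⟩ := hs; exact c0 g hg k hk
    | one => exact h1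
    | mul a b a1 b1 ha hb => rw [hK a a1 b b1, ha, hb, add_zero]
    | inv a _ ha => rw [hi, ha, neg_zero]
  have c2 : ∀ g ∈ K, ∀ a ∈ ⁅K, K⁆, ρ (a * g) = ρ g := fun g hg a ha => sub_eq_zero.1 (z0 (C := C) fun n => by
    obtain ⟨b, b1, b2⟩ : ∃ b ∈ ⁅K, K⁆, (a * g) ^ n = b * g ^ n := by
      induction n with
      | zero => exact ⟨1, one_mem _, by simp⟩
      | succ n ih =>
        obtain ⟨b, b1, b2⟩ := ih
        exact ⟨a * (g * b * g⁻¹), mul_mem ha (cj g hg b b1), by rw [pow_succ', b2]; group⟩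
    have := h b (g ^ n)
    rwa [← b2, hp, hp, c1 b b1, sub_zero, ← mul_sub] at this)
  refine ⟨c1, fun g hg k hk => sub_eq_zero.1 (z0 (C := C) fun n => ?_)⟩
  obtain ⟨b, b1, b2⟩ : ∃ b ∈ ⁅K, K⁆, (g * k) ^ n = b * (g ^ n * k ^ n) := by
    induction n with
    | zero => exact ⟨1, one_mem _, by simp⟩
    | succ n ih =>
      obtain ⟨b, b1, b2⟩ := ih
      exact ⟨g * k * b * (g * k)⁻¹ * (g * ⁅k, g ^ n⁆ * g⁻¹), mul_mem (cj _ (mul_mem hg hk) b b1)
        (cj g hg _ (commutator_mem_commutator hk (pow_mem hg n))), by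
          rw [pow_succ', b2, commutatorElement_def]; group⟩
  have := h (g ^ n) (k ^ n)
  rwa [← c2 _ (mul_mem (pow_mem hg n) (pow_mem hk n)) b b1, ← b2, hp, hp, hp, sub_sub, ← mul_add, ← mul_sub] at this

lemma qm [Group.IsSolvable G] (hab : ∀ g : G, ∃ n : ℕ, 0 < n ∧ g ^ n ∈ commutator G) {D : G → ℝ} {C : ℝ}
    (h : ∀ g k, |D (g * k) - D g - D k| ≤ C) (g : G) : |D g| ≤ C := by
  obtain ⟨ρ, hρ⟩ := hom h
  have hp : ∀ g (n : ℕ), ρ (g ^ n) = n * ρ g := fun g n => sub_eq_zero.1 (z0 (C := C + C) fun m => by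
    have q1 := abs_le.1 (hρ (g ^ n) m)
    have q2 := abs_le.1 (hρ g (n * m))
    rw [pow_mul] at q2
    rw [abs_le]; push_cast at q2
    constructor <;> linarith)
  have h1 : ∀ g, |ρ g - D g| ≤ C := fun g => by simpa using hρ g 1
  have h2 : ∀ g k, |ρ (g * k) - ρ g - ρ k| ≤ 4 * C := fun g k => by
    have := abs_le.1 (h g k); have := abs_le.1 (h1 g); have := abs_le.1 (h1 k); have := abs_le.1 (h1 (g * k))
    rw [abs_le]; constructor <;> linarith
  obtain ⟨d, hd⟩ := Group.IsSolvable.solvable (G := G)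
  have : ∀ i, ∀ a ∈ derivedSeries G i, ∀ b ∈ derivedSeries G i, ρ (a * b) = ρ a + ρ b := fun i => by
    rcases le_total i d with q | q
    · induction q using Nat.decreasingInduction with
      | self => simpa [hd] using hp 1 0
      | of_succ k _ ih => exact (add h2 hp _ ih).2
    · simpa [eq_bot_iff.2 ((derivedSeries_antitone G q).trans hd.le)] using hp 1 0
  obtain ⟨n, n1, n2⟩ := hab g
  have q := (add h2 hp ⊤ (this 1)).1 _ n2
  rw [hp, mul_eq_zero] at q
  simpa [q.resolve_left (by positivity)] using h1 g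

end Pool.Agent.H.MP_0c2877_al
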