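import Pool.Agent.H.MP_0c2877_al.A

set_option autoImplicit false
open Subgroup Filter

namespace Pool.Agent.H.MP_0c2877_al

variable {G : Type} [Group G]

def FX (A : Subgroup G) : Prop := ∀ (Ω : Type) [MulAction G Ω] (r : Ω → Ω → Prop), (∀ x y, r x y ∨ r y x) →
  (∀ x y z, r x y → r y z → r x z) → (∀ (g : G) x y, r x y → r (g • x) (g • y)) →
  ∀ x, (∀ a ∈ A, r (a • x) x) → ∀ g : G, r (g • x) x

lemma two [Group.IsSolvable G] (hab : ∀ g : G, ∃ n : ℕ, 0 < n ∧ g ^ n ∈ commutator G) {A : Subgroup G} [hn : A.Normal]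
    (H : FX A) {Ω : Type} [PartialOrder Ω] [MulAction G Ω] (tot : ∀ x y : Ω, x ≤ y ∨ y ≤ x)
    (mo : ∀ (g : G) {x y : Ω}, x ≤ y → g • x ≤ g • y) (cm : ∀ a ∈ A, ∀ b ∈ A, ∀ x : Ω, a • b • x = b • a • x)
    {a : G} (ha : a ∈ A) (h1 : ∀ y : Ω, y < a • y) (h2 : ∀ y w : Ω, ∃ n : ℕ, w ≤ a ^ n • y) (x : Ω) : False := by
  have sm : ∀ y : Ω, StrictMono fun k : ℤ => a ^ k • y := fun y => strictMono_int_of_lt_succ fun k => by
    simpa only [add_comm k, zpow_one_add, mul_smul] using h1 (a ^ k • y)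
  have ad : ∀ (k j : ℤ) (y : Ω), a ^ k • a ^ j • y = a ^ (k + j) • y := fun k j y => by rw [zpow_add, mul_smul]
  have p : ∀ y : Ω, ∃ k : ℤ, a ^ k • x ≤ y ∧ y ≤ a ^ (k + 1) • x := fun y => by
    obtain ⟨n, n1⟩ := h2 x y
    obtain ⟨m, m1⟩ := h2 y x
    obtain ⟨k, k1, k2⟩ := Int.exists_greatest_of_bdd (P := fun k => a ^ k • x ≤ y)
      ⟨n, fun k hk => (sm x).le_iff_le.1 (hk.trans (by simpa using n1))⟩ ⟨-m, by simpa using mo (a ^ m)⁻¹ m1⟩
    exact ⟨k, k1, (tot _ _).resolve_right fun q => by have := k2 _ q; omega⟩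
  have b1 : ∀ b ∈ A, ∃ k : ℤ, ∀ y : Ω, b • y ≤ a ^ k • y := fun b hb => by
    obtain ⟨n, n1⟩ := h2 x (b • x)
    refine ⟨n + 1, fun y => ?_⟩
    obtain ⟨j, j1, j2⟩ := p y
    calc b • y ≤ b • a ^ (j + 1) • x := mo _ j2
      _ = a ^ (j + 1) • b • x := cm _ hb _ (zpow_mem ha _) _
      _ ≤ a ^ (j + 1) • a ^ (n : ℤ) • x := mo _ (by simpa using n1)
      _ = a ^ (n + 1 : ℤ) • a ^ j • x := by rw [ad, ad]; congr 2; ring
      _ ≤ _ := mo _ j1
  have b2 : ∀ g : G, ∃ k : ℤ, ∀ y : Ω, g • y ≤ a ^ k • y := fun g => by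
    by_contra! q
    choose y hy using q
    obtain ⟨k, hk⟩ := H (ℕ → Ω) (fun f f' => ∃ k : ℤ, ∀ᶠ n in (hyperfilter ℕ : Filter ℕ), f n ≤ a ^ k • f' n)
      (fun f f' => (Ultrafilter.eventually_or.1 (.of_forall fun n => tot (f n) (f' n))).imp
        (fun q => ⟨0, by simpa⟩) fun q => ⟨0, by simpa⟩)
      (fun _ _ _ ⟨k, q⟩ ⟨j, q'⟩ => ⟨k + j, (q.and q').mono fun n w => w.1.trans (ad k j _ ▸ mo _ w.2)⟩)
      (fun g _ _ ⟨k, q⟩ => (b1 _ (hn.1 _ (zpow_mem ha k) g)).imp fun j w => q.mono fun n e =>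
        (mo g e).trans (by simpa [mul_smul] using w (g • _)))
      (fun n => y n) (fun b hb => (b1 b hb).imp fun k w => .of_forall fun n => w _) g
    obtain ⟨n, n1, n2⟩ := (hk.and ((Nat.hyperfilter_le_atTop) (eventually_ge_atTop k.toNat))).exists
    exact hy n (n1.trans ((sm _).monotone (by simpa using n2)))
  have b3 : ∀ (g : G) (n : ℤ) (z : Ω), g • a ^ n • z ≤ a ^ (n + 1) • g • z := fun g n z => by
    refine (tot _ _).resolve_right fun q => ?_
    obtain ⟨k, k1⟩ := b2 g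
    obtain ⟨j, j1⟩ := b2 g⁻¹
    have e : ∀ m : ℕ, a ^ ((n + 1) * m) • g • z ≤ g • a ^ (n * m) • z := fun m => by
      induction m with
      | zero => simp
      | succ m ih =>
        have := cm _ (zpow_mem ha (n + 1)) _ (hn.1 _ (zpow_mem ha (n * m)) g) (g • z)
        simp only [mul_smul, inv_smul_smul] at this
        calc a ^ ((n + 1) * (m + 1 : ℕ)) • g • z = a ^ (n + 1) • a ^ ((n + 1) * m) • g • z := by
              rw [ad]; congr 2; push_cast; ring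
          _ ≤ a ^ (n + 1) • g • a ^ (n * m) • z := mo _ ih
          _ ≤ g • a ^ (n * m) • g⁻¹ • g • a ^ n • z := this ▸ mo _ (mo _ (mo _ q))
          _ = _ := by rw [inv_smul_smul, ad]; congr 3; push_cast; ring
    have := (sm _).le_iff_le.1 (((e ((k + j).toNat + 1)).trans (k1 _)).trans
      ((mo _ (mo _ (by simpa using j1 (g • z)))).trans_eq (by rw [ad, ad])))
    have := Int.self_le_toNat (k + j)
    push_cast at *
    linarith
  choose D d1 d2 using fun g : G => p (g • x)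
  have b4 : ∀ g k, |(D (g * k) : ℝ) - D g - D k| ≤ 3 := fun g k => by
    have q1 : D (g * k) ≤ D k + 1 + 1 + (D g + 1) := (sm x).le_iff_le.1 ((d1 _).trans (by
      rw [mul_smul, ← ad]; exact (mo _ (d2 k)).trans ((b3 _ _ _).trans (mo _ (d2 g)))))
    have q2 : D k - 1 + D g ≤ D (g * k) + 1 := (sm x).le_iff_le.1 (le_trans (by
      rw [mul_smul, ← ad]
      exact (mo _ (d1 g)).trans (le_trans (by simpa using mo g (b3 g⁻¹ (D k - 1) (g • x))) (mo _ (d1 k)))) (d2 _))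
    exact_mod_cast (show |D (g * k) - D g - D k| ≤ 3 from abs_le.2 ⟨by omega, by omega⟩)
  have q : |D (a ^ (5 : ℤ))| ≤ 3 := by exact_mod_cast qm (D := fun g => (D g : ℝ)) hab b4 (a ^ (5 : ℤ))
  have := (sm x).le_iff_le.1 (d2 (a ^ (5 : ℤ)))
  have := (abs_le.1 q).2
  omega

lemma one [Group.IsSolvable G] (hab : ∀ g : G, ∃ n : ℕ, 0 < n ∧ g ^ n ∈ commutator G) {Y : Set G} (y1 : Y.Finite)
    (y2 : closure Y = ⊤) {A : Subgroup G} [hn : A.Normal]
    (H : FX A) {X : Type} [CompleteLattice X] [MulAction G X] (tot : ∀ x y : X, x ≤ y ∨ y ≤ x)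
    (mo : ∀ (g : G) {x y : X}, x ≤ y → g • x ≤ g • y) (cm : ∀ a ∈ A, ∀ b ∈ A, ∀ x : X, a • b • x = b • a • x)
    (x : X) (g : G) : g • x = x := by
  classical
  have adj : ∀ (g : G) (x y : X), g • x ≤ y ↔ x ≤ g⁻¹ • y := fun g x y =>
    ⟨fun h => by simpa using mo g⁻¹ h, fun h => by simpa using mo g h⟩
  have fs : ∀ (g : G) (S : Set X), (∀ s ∈ S, g • s ≤ sSup S) → g • sSup S ≤ sSup S := fun g S h =>
    (adj _ _ _).2 (sSup_le fun s hs => (adj _ _ _).1 (h s hs))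
  have fi : ∀ (g : G) (S : Set X), (∀ s ∈ S, sInf S ≤ g⁻¹ • s) → g • sInf S ≤ sInf S := fun g S h =>
    le_sInf fun s hs => (adj _ _ _).2 (h s hs)
  have fe : ∀ (B : Subgroup G) (y : X), (∀ g ∈ B, g • y ≤ y) → ∀ g ∈ B, g • y = y := fun B y h g hg =>
    (h g hg).antisymm (by simpa using (adj _ _ _).1 (h _ (inv_mem hg)))
  have fa : ∀ g : G, ∀ y : X, (∀ g : G, g • y ≤ y) → g • y = y := fun g y h => fe ⊤ y (fun g _ => h g) g trivial
  by_contra hx
  set u := sInf {y | x ≤ y ∧ ∀ g : G, g • y = y}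
  set l := sSup {y | y ≤ x ∧ ∀ g : G, g • y = y}
  have u1 : ∀ g : G, g • u = u := fun g => fa g u fun g => fi g _ fun s hs => by rw [hs.2]; exact sInf_le hs
  have l1 : ∀ g : G, g • l = l := fun g => fa g l fun g => fs g _ fun s hs => by rw [hs.2]; exact le_sSup hs
  let J : SubMulAction G X := ⟨{y | l < y ∧ y < u}, fun g y h =>
    ⟨(l1 g ▸ mo g h.1.le).lt_of_ne fun e => h.1.ne (smul_left_cancel g ((l1 g).trans e)),
      (u1 g ▸ mo g h.2.le).lt_of_ne fun e => h.2.ne (smul_left_cancel g (e.trans (u1 g).symm))⟩⟩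
  have xJ : x ∈ J := ⟨(sSup_le fun _ h => h.1).lt_of_ne fun e => hx (e ▸ l1 g),
    (le_sInf fun _ h => h.1).lt_of_ne fun e => hx (e ▸ u1 g)⟩
  have nJ : ∀ y ∈ J, ¬ ∀ g : G, g • y ≤ y := fun y hy h => (tot x y).elim
    (fun q => hy.2.not_ge (sInf_le ⟨q, fun g => fa g y h⟩)) fun q => hy.1.not_ge (le_sSup ⟨q, fun g => fa g y h⟩)
  have cv : ∀ y ∈ J, ∀ w ∈ J, ∀ z, y ≤ z → z ≤ w → z ∈ J := fun y hy w hw z h k => ⟨hy.1.trans_le h, k.trans_lt hw.2⟩
  have fp : ∀ b ∈ A, ∀ y p : X, y ≤ p → y ≤ b • y → b • p ≤ p → ∃ z, y ≤ z ∧ z ≤ p ∧ b • z = z ∧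
      ∀ c ∈ A, c • y = y → c • z = z := fun b hb y p h1 h2 h3 => by
    have z1 : y ≤ sInf {w | y ≤ w ∧ b • w ≤ w} := le_sInf fun _ h => h.1
    have z2 : b • sInf {w | y ≤ w ∧ b • w ≤ w} ≤ _ := le_sInf (s := {w | y ≤ w ∧ b • w ≤ w})
      fun w h => (mo b (sInf_le h)).trans h.2
    exact ⟨_, z1, sInf_le ⟨h1, h3⟩, z2.antisymm (sInf_le ⟨h2.trans (mo b z1), mo b z2⟩), fun c c1 c2 =>
      fe (A ⊓ MulAction.stabilizer G y) _ (fun c hc => fi c _ fun s hs => sInf_le (And.intro ((show c⁻¹ • y = y from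
        (MulAction.stabilizer G y).inv_mem hc.2).ge.trans (mo _ hs.1)) ((cm _ hb _ (inv_mem hc.1) s).trans_le (mo _ hs.2)))) c ⟨c1, c2⟩⟩
  have sg : ∀ (b : G) (y : X), y ≤ b • y ∨ y ≤ b⁻¹ • y := fun b y => (tot y (b • y)).imp_right (adj _ _ _).1
  obtain ⟨a, ha, a1⟩ : ∃ a ∈ A, ∀ y ∈ J, a • y ≠ y := by
    by_contra! h
    have : ∀ B : Finset G, ∃ y ∈ J, ∀ b ∈ B, b ∈ A → b • y = y := fun B => by
      induction B using Finset.induction_on with
      | empty => exact ⟨x, xJ, by simp⟩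
      | insert b B _ ih =>
        by_cases hb : b ∈ A
        swap; · simpa [hb] using ih
        obtain ⟨p, p1, p2⟩ := h b hb
        obtain ⟨y, y1, y2, y3⟩ : ∃ y ∈ J, (∀ b ∈ B, b ∈ A → b • y = y) ∧ y ≤ p := by
          by_contra! k
          obtain ⟨y, hy⟩ := ih
          refine nJ (sInf {y ∈ J | ∀ b ∈ B, b ∈ A → b • y = y}) (cv p p1 y hy.1 _
            (le_sInf fun w hw => (tot _ _).resolve_right (k w hw.1 hw.2)) (sInf_le hy))
            (H X (· ≤ ·) tot (fun _ _ _ => le_trans) (fun g _ _ => mo g) _ fun c hc => fi c _ fun s hs => sInf_le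
              ⟨J.smul_mem _ hs.1, fun b b1 b2 => by rw [cm b b2 _ (inv_mem hc), hs.2 b b1 b2]⟩)
        obtain ⟨z, z1, z2, z3, z4⟩ : ∃ z, y ≤ z ∧ z ≤ p ∧ b • z = z ∧ ∀ c ∈ A, c • y = y → c • z = z :=
          (sg b y).elim (fp b hb y p y3 · p2.le) fun q => by
            simpa only [inv_smul_eq_iff, eq_comm (b := b • _)] using
              fp _ (inv_mem hb) y p y3 q (inv_smul_eq_iff.2 p2.symm).le
        exact ⟨z, cv y y1 p p1 z z1 z2, by simpa [z3] using fun c c1 c2 => z4 c c2 (y2 c c1 c2)⟩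
    choose y hy1 hy2 using this
    obtain ⟨U, le⟩ := exists_ultrafilter_le (atTop : Filter (Finset G))
    have := H (Finset G → X) (fun f f' => ∀ᶠ B in (U : Filter (Finset G)), f B ≤ f' B)
      (fun f f' => Ultrafilter.eventually_or.1 (.of_forall fun n => tot (f n) (f' n)))
      (fun _ _ _ q q' => (q.and q').mono fun n w => w.1.trans w.2) (fun g _ _ q => q.mono fun n => mo g) y
      fun b hb => ((eventually_ge_atTop {b}).filter_mono le).mono fun B q => (hy2 B b (by simpa using q) hb).le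
    obtain ⟨B, hB⟩ := ((eventually_all_finite (y1.union y1.inv)).2 fun g _ => this g).exists
    refine nJ _ (hy1 B) fun g => le_of_eq (show g ∈ MulAction.stabilizer G (y B) from ?_)
    exact (y2.ge.trans ((closure_le _).2 fun s hs => (hB s (.inl hs)).antisymm
      (by simpa using (adj _ _ _).1 (hB s⁻¹ (.inr (by simpa)))))) trivial
  wlog a2 : x ≤ a • x generalizing a
  · exact this a⁻¹ (inv_mem ha) (fun y hy e => a1 y hy (inv_smul_eq_iff.1 e).symm) ((sg a x).resolve_left a2)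
  have a3 : ∀ y ∈ J, y < a • y := fun y hy => by
    refine lt_of_le_of_ne ((tot _ _).resolve_right fun q => ?_) (a1 y hy).symm
    rcases tot x y with k | k
    · obtain ⟨z, z1, z2, z3, -⟩ := fp a ha x y k a2 q
      exact a1 z (cv x xJ y hy z z1 z2) z3
    · obtain ⟨z, z1, z2, z3, -⟩ := fp _ (inv_mem ha) y x k ((adj _ _ _).1 q) (by simpa [adj] using a2)
      exact a1 z (cv y hy x xJ z z1 z2) (inv_smul_eq_iff.1 z3).symm
  refine two hab H (Ω := J) (fun y w => tot y w) (fun g _ _ => mo g) (fun b hb c hc y => Subtype.ext (cm b hb c hc y))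
    ha (fun y => a3 y y.2) (fun y w => ?_) ⟨x, xJ⟩
  by_contra! k
  exact (a3 _ (cv y y.2 w w.2 _ (le_sSup (Exists.intro 0 (by simp))) (sSup_le (by
    rintro _ ⟨n, rfl⟩; exact (tot _ _).resolve_right (k n))))).not_ge (fs a (Set.range fun n : ℕ => a ^ n • y.1) (by
      rintro _ ⟨n, rfl⟩; exact le_sSup ⟨n + 1, by simp [pow_succ', mul_smul]⟩))

lemma fx [Group.IsSolvable G] (hab : ∀ g : G, ∃ n : ℕ, 0 < n ∧ g ^ n ∈ commutator G) {Y : Set G} (y1 : Y.Finite)
    (y2 : closure Y = ⊤) (d : ℕ) : FX (derivedSeries G d) := by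
  induction d with
  | zero => exact fun _ _ _ _ _ _ _ h g => h g trivial
  | succ d ih =>
    intro Ω _ r r1 r2 r3 x hx g
    have := derivedSeries_normal G d
    have hn := derivedSeries_normal G (d + 1)
    let J : SubMulAction G Ω := ⟨{y | ∀ a ∈ derivedSeries G (d + 1), r (a • y) y}, fun g y h a ha => by
      simpa [mul_smul] using r3 g _ _ (h _ (hn.conj_mem' a ha g))⟩
    letI : LE J := ⟨fun y w => r y w⟩
    letI : MulAction G (LowerSet J) :=
      { smul := fun g s => ⟨{y | g⁻¹ • y ∈ s}, fun y w h k => s.2 (r3 g⁻¹ _ _ h) k⟩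
        one_smul := fun s => LowerSet.ext (Set.ext fun y => show 1⁻¹ • y ∈ s ↔ _ by simp)
        mul_smul := fun a b s => LowerSet.ext (Set.ext fun y => show (a * b)⁻¹ • y ∈ s ↔ b⁻¹ • a⁻¹ • y ∈ s by
          simp [mul_smul]) }
    have c : ∀ a ∈ derivedSeries G d, ∀ b ∈ derivedSeries G d, ∀ s : LowerSet J, a • b • s ≤ b • a • s :=
      fun a ha b hb s y (h : b⁻¹ • a⁻¹ • y ∈ s) => show a⁻¹ • b⁻¹ • y ∈ s from s.2 (show r _ _ by
        simpa [commutatorElement_def, mul_smul] using (b⁻¹ • a⁻¹ • y).2 _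
          (commutator_mem_commutator (inv_mem ha) (inv_mem hb))) h
    have e := one hab y1 y2 ih (X := LowerSet J) (fun s t => or_iff_not_imp_left.2 fun h y hy => by
      obtain ⟨w, w1, w2⟩ := Set.not_subset.1 h
      exact s.2 ((r1 y w).resolve_right fun q => w2 (t.2 q hy)) w1) (fun g s t h y hy => h hy)
      (fun a ha b hb s => (c a ha b hb s).antisymm (c b hb a ha s)) ⟨{y | r y x}, fun y w h k => r2 _ _ _ h k⟩ g⁻¹
    simpa using show r ((g⁻¹⁻¹ • (⟨x, hx⟩ : J) : J) : Ω) x from e.ge (show r x x from (r1 x x).elim id id)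

end Pool.Agent.H.MP_0c2877_al
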