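import Pool.Agent.H.MP_0c2877_al.B

set_option autoImplicit false
open Subgroup commutatorElement
open Set (image2)

namespace Pool.Agent.H.MP_0c2877_al

variable {G : Type} [Group G]

lemma cen {Q : Type} [Group Q] (φ : G →* Q) {Y : Set G} (hg : closure Y = ⊤) {z : Q} (h : ∀ y ∈ Y, Commute (φ y) z)
    (a : G) : Commute (φ a) z := by
  induction (hg ▸ mem_top a : a ∈ closure Y) using closure_induction with
  | mem s hs => exact h s hs
  | one => simp
  | mul a b _ _ ha hb => rw [map_mul]; exact ha.mul_left hb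
  | inv a _ ha => rw [map_inv]; exact ha.inv_left

lemma cq (N : Subgroup G) [N.Normal] {a b : G} :
    Commute (QuotientGroup.mk' N a) (QuotientGroup.mk' N b) ↔ ⁅a, b⁆ ∈ N := by
  rw [← commutatorElement_eq_one_iff_commute, ← map_commutatorElement]
  exact QuotientGroup.eq_one_iff _

lemma ab (N : Subgroup G) [N.Normal] {Y : Set G} (hg : closure Y = ⊤) (h : ∀ y ∈ Y, ∀ w ∈ Y,
    Commute (QuotientGroup.mk' N y) (QuotientGroup.mk' N w)) : commutator G ≤ N := commutator_le.2 fun a _ b _ =>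
  (cq N).1 (cen _ hg (fun y hy => (cen _ hg (fun w hw => h w hw y hy) b).symm) a)

lemma step (M : Subgroup G) [hn : M.Normal] (hM : ∀ a ∈ M, ∀ b ∈ M, Commute a b) {Y R E : Set G} (y1 : Y.Finite)
    (hg : closure Y = ⊤) (e1 : E.Finite) (re : R ⊆ E) (h1 : Y ⊆ (closure R ⊔ commutator G ⊔ M : Subgroup G))
    (h2 : E ⊆ (closure R ⊔ commutator G : Subgroup G)) : ∃ Y' L : Set G, Y'.Finite ∧ L.Finite ∧ 1 ∈ L ∧
      (∀ l ∈ L, ∀ x ∈ E, l * x * l⁻¹ ∈ closure Y') ∧
      closure Y' ≤ Subgroup.closure (image2 (fun l x => l * x * l⁻¹) L R) ⊔ ⁅closure Y', closure Y'⁆ := by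
  have cm : ∀ a b : G, ⁅a, b⁆ ∈ commutator G := fun a b => commutator_mem_commutator (mem_top a) (mem_top b)
  have cr : ∀ r ∈ M, ∀ a : G, ⁅r, a⁆ ∈ M := fun r hr a => by
    simpa [commutatorElement_def, mul_assoc] using mul_mem hr (hn.1 _ (inv_mem hr) a)
  set K := closure R ⊔ commutator G
  have : ∀ y ∈ Y, ∃ z ∈ K, ∃ l ∈ M, z * l = y := fun y hy => mem_sup_of_normal_right.1 (h1 hy)
  choose! z z1 l l1 zl using this
  set Z := z '' Y ∪ E
  set L := insert 1 (l '' Y ∪ (l '' Y)⁻¹)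
  have Z1 : ∀ x ∈ Z, x ∈ K := by rintro _ (⟨y, hy, rfl⟩ | h); exacts [z1 y hy, h2 h]
  have L1 : ∀ x ∈ L, x ∈ M := by
    rintro _ (rfl | ⟨y, hy, rfl⟩ | ⟨y, hy, h⟩)
    exacts [one_mem _, l1 y hy, inv_mem_iff.1 (h ▸ l1 y hy)]
  have L2 : ∀ y ∈ Y, l y ∈ L ∧ (l y)⁻¹ ∈ L := fun y hy => ⟨.inr (.inl ⟨y, hy, rfl⟩), .inr (.inr ⟨y, hy, by simp⟩)⟩
  have L3 : L.Finite := ((y1.image l).union (y1.image l).inv).insert 1
  set S := Z ∪ image2 (fun r s => ⁅r, s⁆) L Z
  set V := closure S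
  have v1 : ∀ x ∈ Z, x ∈ V := fun x h => subset_closure (.inl h)
  have v2 : ∀ r ∈ L, ∀ x ∈ Z, ⁅r, x⁆ ∈ V := fun r h x k => subset_closure (.inr ⟨r, h, x, k, rfl⟩)
  have n1 : ∀ r ∈ L, ∀ x ∈ V, r * x * r⁻¹ ∈ V := fun r hr x hx => by
    induction hx using closure_induction with
    | mem s hs =>
      rcases hs with hs | ⟨r', r1, s, s1, rfl⟩
      · simpa [commutatorElement_def] using mul_mem (v2 r hr s hs) (v1 s hs)
      · rw [(hM r (L1 r hr) _ (cr _ (L1 r' r1) s)).eq, mul_inv_cancel_right]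
        exact v2 r' r1 s s1
    | one => simp
    | mul a b _ _ ha hb => simpa [mul_assoc] using mul_mem ha hb
    | inv a _ ha => simpa [mul_assoc] using inv_mem ha
  have n2 : ∀ a : G, ∀ x ∈ V, a * x * a⁻¹ ∈ V ∧ a⁻¹ * x * a ∈ V := fun a => by
    induction (hg ▸ mem_top a : a ∈ closure Y) using closure_induction with
    | mem y hy =>
      have hs := v1 _ (.inl ⟨y, hy, rfl⟩)
      rw [← zl y hy]
      exact fun x hx => ⟨by simpa [mul_assoc] using mul_mem (mul_mem hs (n1 _ (L2 y hy).1 x hx)) (inv_mem hs),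
        by simpa [mul_assoc] using n1 _ (L2 y hy).2 _ (mul_mem (mul_mem (inv_mem hs) hx) hs)⟩
    | one => simp
    | mul a b _ _ ha hb => exact fun z hz => ⟨by simpa [mul_assoc] using (ha _ (hb z hz).1).1,
        by simpa [mul_assoc] using (hb _ (ha z hz).2).2⟩
    | inv a _ ha => exact fun z hz => by simpa [and_comm] using ha z hz
  have : V.Normal := ⟨fun x hx a => (n2 a x hx).1⟩
  have gen : ∀ (N : Subgroup G) [N.Normal], (∀ x ∈ Z, ∀ w ∈ Z, ⁅x, w⁆ ∈ N) → (∀ r ∈ L, ∀ x ∈ Z, ⁅r, x⁆ ∈ N) →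
      commutator G ≤ N := fun N _ q1 q2 => ab N hg fun y hy w hw => by
    rw [← zl y hy, ← zl w hw, map_mul, map_mul]
    exact (((cq N).2 (q1 _ (.inl ⟨y, hy, rfl⟩) _ (.inl ⟨w, hw, rfl⟩))).mul_left ((cq N).2 (q2 _ (L2 y hy).1 _
      (.inl ⟨w, hw, rfl⟩)))).mul_right (((cq N).2 (q2 _ (L2 w hw).1 _ (.inl ⟨y, hy, rfl⟩))).symm.mul_left
        ((hM _ (l1 y hy) _ (l1 w hw)).map _))
  have cv : commutator G ≤ V := gen V (fun x hx w hw => commutator_le_self V
    (commutator_mem_commutator (v1 x hx) (v1 w hw))) v2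
  set φ := QuotientGroup.mk' ⁅V, V⁆
  have ce : ∀ r ∈ M, ∀ a u : G, Commute (φ u) (φ ⁅r, a⁆) := fun r hr a => cen φ hg fun y hy => by
    rw [← zl y hy, map_mul]
    exact ((cq _).2 (commutator_mem_commutator (v1 _ (.inl ⟨y, hy, rfl⟩)) (cv (cm r a)))).mul_left
      ((hM _ (l1 y hy) _ (cr r hr a)).map φ)
  set U := Subgroup.closure (image2 (fun l x => l * x * l⁻¹) L R) ⊔ ⁅V, V⁆
  have u1 : ∀ r ∈ L, ∀ x ∈ K, ⁅r, x⁆ ∈ U := fun r hr => by
    let δ : G →* G ⧸ ⁅V, V⁆ := .mk' (fun a => φ ⁅r, a⁆) fun a b => by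
      rw [show ⁅r, a * b⁆ = ⁅r, a⁆ * (a * ⁅r, b⁆ * a⁻¹) by simp only [commutatorElement_def]; group,
        map_mul, map_mul, map_mul, (ce r (L1 r hr) b a).eq, map_inv, mul_inv_cancel_right]
    have : K ≤ (U.map φ).comap δ := sup_le ((closure_le _).2 fun x hx => mem_map_of_mem φ (mem_sup_left
      (mul_mem (subset_closure ⟨r, hr, x, hx, rfl⟩) (inv_mem (subset_closure ⟨1, .inl rfl, x, hx, by simp⟩)))))
      (commutator_le.2 fun a _ b _ => by
        rw [mem_comap, map_commutatorElement,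
          show ⁅δ a, δ b⁆ = 1 from commutatorElement_eq_one_iff_commute.2 (ce r (L1 r hr) b ⁅r, a⁆)]
        exact one_mem _)
    intro x hx
    have := show ⁅r, x⁆ ∈ (U.map φ).comap φ from this hx
    rwa [comap_map_eq, QuotientGroup.ker_mk', sup_eq_left.2 le_sup_right] at this
  have : (U ⊓ (center _).comap φ).Normal := ⟨fun u hu a => by
    have : ⁅a, u⁆ ∈ ⁅V, V⁆ := (cq _).1 (mem_center_iff.1 hu.2 _)
    refine ⟨by simpa [commutatorElement_def] using mul_mem (mem_sup_right this) hu.1, ?_⟩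
    exact ((inferInstance : ((center _).comap φ).Normal).1 u hu.2 a)⟩
  have cu := gen (U ⊓ (center _).comap φ) (fun x hx w hw => by
    have := commutator_mem_commutator (v1 x hx) (v1 w hw)
    exact ⟨mem_sup_right this, show φ _ ∈ center _ by
      rw [show φ ⁅x, w⁆ = 1 from (QuotientGroup.eq_one_iff _).2 this]; exact one_mem _⟩)
    fun r hr x hx => ⟨u1 r hr x (Z1 x hx), mem_center_iff.2 fun u => by
      obtain ⟨u, rfl⟩ := QuotientGroup.mk'_surjective _ u
      exact ce r (L1 r hr) x u⟩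
  have Z3 : Z.Finite := (y1.image z).union e1
  refine ⟨S, L, Z3.union (.image2 _ L3 Z3), L3, .inl rfl, fun r hr x hx => n1 r hr x (v1 x (.inr hx)),
    (closure_le _).2 ?_⟩
  rintro _ (h | ⟨r, hr, x, hx, rfl⟩)
  · exact (sup_le ((closure_le _).2 fun x hx => mem_sup_left (subset_closure ⟨1, .inl rfl, x, hx, by simp⟩))
      (cu.trans inf_le_left) : K ≤ U) (Z1 _ h)
  · exact u1 r hr x (Z1 x hx)

lemma wit {c : G} (hc : c ∈ commutator G) : ∃ F : Set G, F.Finite ∧ c ∈ ⁅closure F, closure F⁆ := by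
  induction hc using closure_induction with
  | mem s hs =>
    obtain ⟨a, -, b, -, rfl⟩ := hs
    exact ⟨{a, b}, Set.toFinite _, commutator_mem_commutator (subset_closure (by simp)) (subset_closure (by simp))⟩
  | one => exact ⟨∅, by simp, one_mem _⟩
  | mul a b _ _ ha hb =>
    obtain ⟨F, f1, f2⟩ := ha
    obtain ⟨H, h1, h2⟩ := hb
    have q1 := closure_mono (Set.subset_union_left (s := F) (t := H))
    have q2 := closure_mono (Set.subset_union_right (s := F) (t := H))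
    exact ⟨_, f1.union h1, mul_mem (commutator_mono q1 q1 f2) (commutator_mono q2 q2 h2)⟩
  | inv a _ ha => exact ha.imp fun F h => ⟨h.1, inv_mem h.2⟩

lemma wit2 {X : Set G} (hX : X.Finite) (P : G → Subgroup G → Prop) (hP : ∀ x a b, a ≤ b → P x a → P x b)
    (h : ∀ x ∈ X, ∃ F : Set G, F.Finite ∧ P x ⁅closure F, closure F⁆) :
    ∃ F : Set G, F.Finite ∧ X ⊆ F ∧ ∀ x ∈ X, P x ⁅closure F, closure F⁆ := by
  choose! F f1 f2 using h
  refine ⟨X ∪ ⋃ x ∈ X, F x, hX.union (hX.biUnion f1), Set.subset_union_left, fun x hx => ?_⟩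
  have := closure_mono ((Set.subset_biUnion_of_mem (u := F) hx).trans (Set.subset_union_right (s := X)))
  exact hP _ _ _ (commutator_mono this this) (f2 x hx)

lemma fg (d : ℕ) : ∀ (G : Type) [Group G], derivedSeries G d = ⊥ → ∀ T : Set G, T.Finite →
    closure T ⊔ commutator G = ⊤ → ∀ X : Set G, X.Finite → T ⊆ X → ∃ Y S : Set G, Y.Finite ∧ S.Finite ∧ 1 ∈ S ∧
      (∀ g ∈ S, ∀ x ∈ X, g * x * g⁻¹ ∈ closure Y) ∧
      closure Y ≤ Subgroup.closure (image2 (fun l x => l * x * l⁻¹) S T) ⊔ ⁅closure Y, closure Y⁆ := by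
  induction d with
  | zero =>
    intro G _ h T _ _ X _ _
    exact ⟨∅, {1}, by simp, by simp, rfl, fun g _ x _ => bot_le (α := Subgroup G) (h.le trivial), by simp⟩
  | succ d ih =>
    intro G _ h T t1 t2 X x1 x2
    have := derivedSeries_normal G d
    set M := derivedSeries G d
    set π := QuotientGroup.mk' M
    have πs : Function.Surjective π := QuotientGroup.mk'_surjective M
    obtain ⟨W, w1, w2, w3⟩ := wit2 x1 (fun x a => x ∈ closure T ⊔ a) (fun x a b h k => sup_le_sup_left h _ k)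
      fun x _ => by
        obtain ⟨a, a1, c, c1, rfl⟩ := mem_sup_of_normal_right.1 (t2.ge (mem_top x))
        exact (wit c1).imp fun F h => ⟨h.1, mul_mem_sup a1 h.2⟩
    obtain ⟨Y, S, y1, s1, s2, s3, s4⟩ := ih (G ⧸ M) (by
        rw [← map_derivedSeries_eq πs, Subgroup.map_eq_bot_iff, QuotientGroup.ker_mk']) (π '' T) (t1.image _) (by
        rw [← MonoidHom.map_closure, _root_.commutator, ← map_top_of_surjective π πs, ← map_commutator,
          ← Subgroup.map_sup, ← _root_.commutator, t2]) (π '' W) (w1.image _) (Set.image_mono (x2.trans w2))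
    obtain ⟨σ, hσ⟩ := πs.hasRightInverse
    set S' := insert 1 (σ '' S)
    have s5 : ∀ g ∈ S', π g ∈ S := by
      rintro _ (rfl | ⟨g, hg, rfl⟩)
      exacts [map_one π ▸ s2, (hσ g).symm ▸ hg]
    have s6 : S'.Finite := (s1.image σ).insert 1
    set R := image2 (fun l x => l * x * l⁻¹) S' T
    set E := image2 (fun l x => l * x * l⁻¹) S' X
    set Y' := σ '' Y ∪ image2 (fun l x => l * x * l⁻¹) S' W
    set K := closure Y'
    have k1 : K.map π = closure Y := by
      rw [MonoidHom.map_closure]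
      refine ((closure_le _).2 ?_).antisymm (Subgroup.closure_mono fun y hy => ⟨_, .inl ⟨y, hy, rfl⟩, hσ y⟩)
      rintro _ ⟨_, ⟨y, hy, rfl⟩ | ⟨g, hg, x, hx, rfl⟩, rfl⟩
      exacts [subset_closure ((hσ y).symm ▸ hy), by simpa using s3 _ (s5 g hg) _ ⟨x, hx, rfl⟩]
    have re : R ⊆ E := Set.image2_subset_left x2
    have ek : E ⊆ K := fun _ h => subset_closure (.inr (Set.image2_subset_left w2 h))
    have k2 : (closure (K.subtype ⁻¹' R) ⊔ commutator K).map K.subtype = closure R ⊔ ⁅K, K⁆ := by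
      rw [Subgroup.map_sup, MonoidHom.map_closure, map_subtype_commutator,
        Set.image_preimage_eq_of_subset (by simpa using re.trans ek)]
    have fin : ∀ {A : Set G}, A.Finite → (K.subtype ⁻¹' A).Finite := fun h => h.preimage K.subtype_injective.injOn
    obtain ⟨Z, L, z1, l1, l2, l3, l4⟩ := step (M.comap K.subtype) (fun a ha b hb => Subtype.ext
        (commutatorElement_eq_one_iff_mul_comm.1 (h.le (commutator_mem_commutator ha hb))))
      (fin ((y1.image σ).union (.image2 _ s6 w1))) (closure_closure_coe_preimage (k := Y')) (fin (.image2 _ s6 x1))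
      (Set.preimage_mono re) (fun y _ => by
        have : y.1 ∈ ((closure R ⊔ ⁅K, K⁆).map π).comap π := by
          rw [mem_comap, Subgroup.map_sup, map_commutator, k1, MonoidHom.map_closure]
          refine sup_le_sup_right (Subgroup.closure_mono ?_) _ (s4 (k1 ▸ mem_map_of_mem π y.2))
          rintro _ ⟨g, hg, _, ⟨x, hx, rfl⟩, rfl⟩
          exact ⟨_, ⟨_, .inr ⟨g, hg, rfl⟩, x, hx, rfl⟩, by simp [hσ g]⟩
        rw [comap_map_eq, QuotientGroup.ker_mk', ← k2] at this
        obtain ⟨_, ⟨z, z1, rfl⟩, l, l1, e⟩ := mem_sup_of_normal_right.1 this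
        have : z⁻¹ * y ∈ M.comap K.subtype := by
          rw [mem_comap, map_mul, map_inv, show K.subtype y = _ from e.symm, inv_mul_cancel_left]; exact l1
        simpa using mul_mem_sup z1 this)
      (fun y ⟨g, hg, x, hx, e⟩ => by
        have : y.1 ∈ closure R ⊔ ⁅K, K⁆ := by
          have q := mem_map_of_mem (MulAut.conj g).toMonoidHom (w3 x hx)
          rw [Subgroup.map_sup, map_commutator, MonoidHom.map_closure, MonoidHom.map_closure] at q
          have : closure ((MulAut.conj g).toMonoidHom '' W) ≤ K := closure_mono (by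
            rintro _ ⟨x, hx, rfl⟩; exact .inr ⟨g, hg, x, hx, rfl⟩)
          exact sup_le_sup (Subgroup.closure_mono (by rintro _ ⟨x, hx, rfl⟩; exact ⟨g, hg, x, hx, rfl⟩))
            (commutator_mono this this) ((show (MulAut.conj g).toMonoidHom x = y.1 from e) ▸ q)
        rw [← k2] at this
        obtain ⟨z, z1, z2⟩ := this
        exact Subtype.ext z2 ▸ z1)
    refine ⟨K.subtype '' Z, image2 (fun l g => l.1 * g) L S', z1.image _, .image2 _ l1 s6,
      ⟨1, l2, 1, .inl rfl, by simp⟩, ?_, ?_⟩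
    · rintro _ ⟨l, hl, g, hg, rfl⟩ x hx
      have := mem_map_of_mem K.subtype (l3 l hl ⟨_, ek ⟨g, hg, x, hx, rfl⟩⟩ ⟨g, hg, x, hx, rfl⟩)
      rw [MonoidHom.map_closure] at this
      simpa [mul_assoc] using this
    · have := map_mono (f := K.subtype) l4
      rw [Subgroup.map_sup, map_commutator, MonoidHom.map_closure, MonoidHom.map_closure] at this
      refine this.trans (sup_le_sup_right (Subgroup.closure_mono ?_) _)
      rintro _ ⟨_, ⟨l, hl, r, ⟨g, hg, x, hx, e⟩, rfl⟩, rfl⟩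
      exact ⟨_, ⟨l, hl, g, hg, rfl⟩, x, hx, by simp [show r.1 = _ from e.symm, mul_assoc]⟩

end Pool.Agent.H.MP_0c2877_al
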